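import Pool.Agent.H257K.GF
import Pool.Agent.H257K.LC
import Pool.Agent.H257K.Path

/-!
# The k-absolute length of the symmetric group when only the longest reflection is left out

For the symmetric group on `n = N + 3` letters and `k = N` the set `T_k` consists of all transpositions except the
longest one.  We compute the generating function of the `k`-absolute length and show that it is unimodal (and
log-concave without internal zeros).

Idea of the proof.  Let `r w` be the codimension of the space of functions that are constant on the cycles of `w`.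
A directed path has at least `r w` arrows, and one with exactly `r w` arrows only uses transpositions inside the cycles
of `w`; so it does not exist when the two extreme letters form a 2-cycle of `w`.  In all other cases such a path is built
by removing the largest moved letter, or the smallest letter if that is not possible.  In the exceptional case the length
is `r w + 2`, by parity and an explicit path.
-/

set_option autoImplicit false

namespace Pool.Agent.Results.MP_709c67_co.SecondLongestReflection

open Equiv Polynomial H257K

/-- The generating function `P_{W,k}` of the `k`-absolute length for `W = S_n`. -/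
noncomputable def P (n k : ℕ) : ℤ[X] := ∑ w : Perm (Fin n), X ^ klen k w

theorem sum_transfer (N : ℕ) : P (N + 3) N = ∑ w : Perm (Option (Option (Fin (N + 1)))), fw (Fin (N + 1)) w := by
  let e : Fin (N + 3) ≃ Option (Option (Fin (N + 1))) :=
    (finSuccEquiv (N + 2)).trans (optionCongr finSuccEquivLast)
  have e0 : e 0 = none := by simp [e]
  have eL : e (Fin.last (N + 2)) = some none := by
    have : Fin.last (N + 2) = (Fin.last (N + 1)).succ := rfl
    rw [this]
    simp [e]
  have s0 : e.symm none = 0 := by rw [← e0, Equiv.symm_apply_apply]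
  have sL : e.symm (some none) = Fin.last (N + 2) := by rw [← eL, Equiv.symm_apply_apply]
  rw [← Equiv.sum_comp e.permCongr]
  unfold P
  refine Finset.sum_congr rfl fun w _ => ?_
  rw [klen_eq]
  unfold fw
  rw [r_congr]
  have h1 : (e.permCongr w) none = some none ↔ w 0 = Fin.last (N + 2) := by
    rw [Equiv.permCongr_apply, s0, ← eL]
    exact e.injective.eq_iff
  have h2 : (e.permCongr w) (some none) = none ↔ w (Fin.last (N + 2)) = 0 := by
    rw [Equiv.permCongr_apply, sL, ← e0]
    exact e.injective.eq_iff
  by_cases hb : Bad w
  · rw [if_pos hb, if_pos ⟨h1.2 hb.1, h2.2 hb.2⟩]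
  · rw [if_neg hb, if_neg (fun h => hb ⟨h1.1 h.1, h2.1 h.2⟩)]

theorem P_eq (N : ℕ) : P (N + 3) N =
    (1 + C (2 * ((N : ℤ) + 1)) * X + C (((N : ℤ) + 1) * (N + 2)) * X ^ 2 + X ^ 3) *
      ∏ i ∈ Finset.range N, (1 + C ((i : ℤ) + 1) * X) := by
  rw [sum_transfer, GF2, GF_fin, Fintype.card_fin]
  push_cast
  ring_nf

/-- For all `N`, in the symmetric group on `N + 3` letters and for `k = N`, the generating function of the `k`-absolute
length is `(1 + 2(N+1)x + (N+1)(N+2)x^2 + x^3) (1 + x)(1 + 2x) ... (1 + Nx)`, and its coefficients form a unimodal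
sequence, which is also log-concave without internal zeros. -/
theorem result (N : ℕ) :
    P (N + 3) N = (1 + C (2 * ((N : ℤ) + 1)) * X + C (((N : ℤ) + 1) * (N + 2)) * X ^ 2 + X ^ 3) *
      ∏ i ∈ Finset.range N, (1 + C ((i : ℤ) + 1) * X) ∧
    (∃ m, (∀ i < m, (P (N + 3) N).coeff i ≤ (P (N + 3) N).coeff (i + 1)) ∧
      ∀ i, m ≤ i → (P (N + 3) N).coeff (i + 1) ≤ (P (N + 3) N).coeff i) ∧
    ∀ i j, i ≤ j → (P (N + 3) N).coeff i * (P (N + 3) N).coeff (j + 2) ≤
      (P (N + 3) N).coeff (i + 1) * (P (N + 3) N).coeff (j + 1) := by
  have h := P_eq N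
  have hs : SLC (fun n => (P (N + 3) N).coeff n) := by
    rw [h]
    apply slc_prod
    have := slc_cubic ((N : ℤ) + 1) (by linarith [Int.natCast_nonneg N])
    rw [show ((N : ℤ) + 1) * (N + 1 + 1) = ((N : ℤ) + 1) * (N + 2) by ring] at this
    exact this
  refine ⟨h, unimodal_of_slc _ hs ?_, hs.2⟩
  rw [h, mul_coeff_zero, coeff_zero_prod]
  have : ∏ i ∈ Finset.range N, (1 + C ((i : ℤ) + 1) * X : ℤ[X]).coeff 0 = 1 :=
    Finset.prod_eq_one fun i _ => by simp
  rw [this]
  simp [coeff_X_pow]

end Pool.Agent.Results.MP_709c67_co.SecondLongestReflection
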